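import Mathlib

open MeasureTheory ProbabilityTheory Filter Finset
open scoped unitInterval ENNReal

namespace Pool.Agent.Q211.CRW

/-- The directions `± e_i`. -/
abbrev Dir (d : ℕ) := Fin d × Bool

/-- The unit vector of a direction. -/
def vec {d : ℕ} (e : Dir d) : Fin d → ℤ := Pi.single e.1 (if e.2 then 1 else -1)

/-- The steps, from the refresh indicators and the fresh directions. -/
def dirs {d : ℕ} (x : ℕ → Bool × Dir d) : ℕ → Dir d
  | 0 => (x 0).2
  | n + 1 => if (x (n + 1)).1 then (x (n + 1)).2 else dirs x n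

/-- The position after `n` steps. -/
def pos {d : ℕ} (x : ℕ → Bool × Dir d) (n : ℕ) : Fin d → ℤ := ∑ k ∈ range n, vec (dirs x k)

/-- The law of one pair (refresh indicator, fresh direction). -/
noncomputable def stepLaw (d : ℕ) [NeZero d] (p : I) : Measure (Bool × Dir d) :=
  (bernoulliMeasure true false p).prod (PMF.uniformOfFintype (Dir d)).toMeasure

instance (d : ℕ) [NeZero d] (p : I) : IsProbabilityMeasure (stepLaw d p) := by
  unfold stepLaw; infer_instance

/-- The law of the whole sequence. -/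
noncomputable def law (d : ℕ) [NeZero d] (p : ℕ → I) : Measure (ℕ → Bool × Dir d) :=
  Measure.infinitePi fun n => stepLaw d (p n)

instance (d : ℕ) [NeZero d] (p : ℕ → I) : IsProbabilityMeasure (law d p) := by
  unfold law; infer_instance

/-- Strong transience. -/
def StronglyTransient (d : ℕ) [NeZero d] (p : ℕ → I) : Prop :=
  ∀ᵐ x ∂(law d p), Tendsto (fun n => Real.sqrt (∑ i, (pos x n i : ℝ) ^ 2)) atTop atTop

/-- The coordinate in dimension one. -/
def S (x : ℕ → Bool × Dir 1) (n : ℕ) : ℤ := ∑ k ∈ range n, (if (dirs x k).2 then 1 else -1)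

lemma pos_eq_S (x : ℕ → Bool × Dir 1) (n : ℕ) (i : Fin 1) : pos x n i = S x n := by
  unfold pos S
  rw [Finset.sum_apply]
  refine Finset.sum_congr rfl fun k _ => ?_
  have h1 : (dirs x k).1 = i := Subsingleton.elim _ _
  rw [vec, h1, Pi.single_eq_same]

lemma norm_eq (x : ℕ → Bool × Dir 1) (n : ℕ) :
    Real.sqrt (∑ i, (pos x n i : ℝ) ^ 2) = |(S x n : ℝ)| := by
  rw [Fin.sum_univ_one, pos_eq_S, Real.sqrt_sq_eq_abs]

lemma S_succ (x : ℕ → Bool × Dir 1) (n : ℕ) :
    S x (n + 1) = S x n + (if (dirs x n).2 then 1 else -1) := by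
  unfold S; rw [Finset.sum_range_succ]

/-- Refreshes happen infinitely often and the walk goes to plus infinity. -/
def Ap : Set (ℕ → Bool × Dir 1) :=
  {x | (∃ᶠ n in atTop, (x n).1 = true) ∧ Tendsto (fun n => S x n) atTop atTop}

def Am : Set (ℕ → Bool × Dir 1) :=
  {x | (∃ᶠ n in atTop, (x n).1 = true) ∧ Tendsto (fun n => S x n) atTop atBot}

lemma meas_dirs (k : ℕ) : Measurable (fun x : ℕ → Bool × Dir 1 => dirs x k) := by
  induction k with
  | zero => exact (measurable_pi_apply 0).snd
  | succ k ih =>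
    have h1 : (fun x : ℕ → Bool × Dir 1 => dirs x (k + 1)) =
      fun x => if (x (k + 1)).1 = true then (x (k + 1)).2 else dirs x k := rfl
    rw [h1]
    refine Measurable.ite ?_ (measurable_pi_apply (k + 1)).snd ih
    exact (measurable_pi_apply (k + 1)).fst (measurableSet_singleton true)

lemma meas_S (n : ℕ) : Measurable (fun x : ℕ → Bool × Dir 1 => S x n) := by
  unfold S
  refine Finset.measurable_sum _ fun k _ => ?_
  have h : Measurable (fun e : Dir 1 => (if e.2 then (1 : ℤ) else -1)) := measurable_of_finite _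
  exact h.comp (meas_dirs k)

lemma meas_freq : MeasurableSet {x : ℕ → Bool × Dir 1 | ∃ᶠ n in atTop, (x n).1 = true} := by
  have h : {x : ℕ → Bool × Dir 1 | ∃ᶠ n in atTop, (x n).1 = true} =
      ⋂ N : ℕ, ⋃ n : ℕ, ⋃ _ : N ≤ n, {x | (x n).1 = true} := by
    ext x
    simp only [Set.mem_ofPred_eq, frequently_atTop, Set.mem_iInter, Set.mem_iUnion, exists_prop]
  rw [h]
  refine MeasurableSet.iInter fun N => MeasurableSet.iUnion fun n => MeasurableSet.iUnion fun _ => ?_
  exact (measurable_pi_apply n).fst (measurableSet_singleton true)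

lemma meas_Ap : MeasurableSet Ap :=
  meas_freq.inter (measurableSet_tendsto atTop meas_S)

/-- Forget everything before time `N`, and refresh at time `N`. -/
def cut (N : ℕ) (x : ℕ → Bool × Dir 1) : ℕ → Bool × Dir 1 := fun k =>
  if k < N then (false, (0, false)) else x k

lemma dirs_cut {N : ℕ} {x : ℕ → Bool × Dir 1} {r : ℕ} (hr : N < r) (hx : (x r).1 = true) :
    ∀ k, r ≤ k → dirs (cut N x) k = dirs x k := by
  intro k hk
  induction k, hk using Nat.le_induction with
  | base =>
    obtain ⟨s, rfl⟩ : ∃ s, r = s + 1 := ⟨r - 1, by omega⟩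
    have h1 : cut N x (s + 1) = x (s + 1) := by
      unfold cut; rw [if_neg (by omega)]
    simp only [dirs, h1, hx, if_true]
  | succ k hk ih =>
    have h1 : cut N x (k + 1) = x (k + 1) := by
      unfold cut; rw [if_neg (by omega)]
    simp only [dirs, h1, ih]

lemma S_cut {N : ℕ} {x : ℕ → Bool × Dir 1} {r : ℕ} (hr : N < r) (hx : (x r).1 = true) :
    ∀ n, r ≤ n → S (cut N x) n = S x n + (S (cut N x) r - S x r) := by
  intro n hn
  induction n, hn using Nat.le_induction with
  | base => ring
  | succ n hn ih =>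
    rw [S_succ, S_succ, ih, dirs_cut hr hx n hn]
    ring

lemma freq_cut (N : ℕ) (x : ℕ → Bool × Dir 1) :
    (∃ᶠ n in atTop, (cut N x n).1 = true) ↔ ∃ᶠ n in atTop, (x n).1 = true := by
  refine frequently_congr ?_
  filter_upwards [eventually_ge_atTop N] with n hn
  unfold cut
  rw [if_neg (by omega)]

lemma Ap_cut (N : ℕ) : (cut N) ⁻¹' Ap = Ap := by
  ext x
  show ((∃ᶠ n in atTop, (cut N x n).1 = true) ∧ Tendsto (fun n => S (cut N x) n) atTop atTop) ↔
    ((∃ᶠ n in atTop, (x n).1 = true) ∧ Tendsto (fun n => S x n) atTop atTop)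
  rw [freq_cut]
  refine and_congr_right fun hf => ?_
  obtain ⟨r, hr, hx⟩ := (frequently_atTop.1 hf) (N + 1)
  have h1 : (fun n => S (cut N x) n) =ᶠ[atTop] fun n => S x n + (S (cut N x) r - S x r) := by
    filter_upwards [eventually_ge_atTop r] with n hn
    exact S_cut (by omega) hx n hn
  rw [tendsto_congr' h1]
  constructor
  · intro h
    have := tendsto_atTop_add_const_right atTop (-(S (cut N x) r - S x r)) h
    simpa only [add_neg_cancel_right] using this
  · intro h
    exact tendsto_atTop_add_const_right atTop _ h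

/-- The sigma-algebra of one coordinate. -/
@[instance_reducible]
def sg (n : ℕ) : MeasurableSpace (ℕ → Bool × Dir 1) :=
  MeasurableSpace.comap (fun x => x n) inferInstance

lemma Ap_tail : MeasurableSet[limsup sg atTop] Ap := by
  rw [limsup_eq_iInf_iSup_of_nat]
  rw [MeasurableSpace.measurableSet_iInf]
  intro N
  rw [← Ap_cut N]
  have hm : @Measurable _ _ (⨆ i, ⨆ (_ : i ≥ N), sg i) MeasurableSpace.pi (cut N) := by
    refine @measurable_pi_lambda _ _ _ (⨆ i, ⨆ (_ : i ≥ N), sg i) _ _ fun k => ?_
    unfold cut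
    by_cases hk : k < N
    · simp only [hk, if_true]
      exact @measurable_const _ _ _ (⨆ i, ⨆ (_ : i ≥ N), sg i) _
    · simp only [hk, if_false]
      have h1 : sg k ≤ ⨆ i, ⨆ (_ : i ≥ N), sg i := le_iSup₂_of_le k (by omega) le_rfl
      exact Measurable.mono (comap_measurable _) h1 le_rfl
  exact hm meas_Ap

lemma zero_one (p : ℕ → I) : law 1 p Ap = 0 ∨ law 1 p Ap = 1 := by
  have hind : iIndep sg (law 1 p) := by
    have := iIndepFun_infinitePi (P := fun n => stepLaw 1 (p n))
      (X := fun n (y : Bool × Dir 1) => y) (fun _ => measurable_id)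
    exact this
  exact measure_zero_or_one_of_measurableSet_limsup_atTop
    (fun n => (measurable_pi_apply n).comap_le) hind Ap_tail

end Pool.Agent.Q211.CRW
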