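import Pool.Agent.Q211.CRW.Sum

open MeasureTheory ProbabilityTheory Filter Finset
open scoped unitInterval ENNReal

namespace Pool.Agent.Q211.CRW

variable {d : ℕ} [NeZero d]

/-- The bad event at a refresh time `t`. -/
def Bd (a : Fin d) (R t : ℕ) : Set (ℕ → Bool × Dir d) :=
  {x | (x t).1 = true ∧ ∀ b, b ≠ a → |pos x t b| ≤ R}

lemma three_axes (hd : 4 ≤ d) (a : Fin d) : ∃ b1 b2 b3 : Fin d,
    b1 ≠ a ∧ b2 ≠ a ∧ b3 ≠ a ∧ b1 ≠ b2 ∧ b1 ≠ b3 ∧ b2 ≠ b3 := by
  classical
  have h1 : 3 ≤ ((Finset.univ : Finset (Fin d)).erase a).card := by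
    rw [Finset.card_erase_of_mem (Finset.mem_univ a), Finset.card_univ, Fintype.card_fin]
    omega
  obtain ⟨T, hT, hc⟩ := Finset.exists_subset_card_eq h1
  obtain ⟨b1, b2, b3, h12, h13, h23, rfl⟩ := Finset.card_eq_three.1 hc
  refine ⟨b1, b2, b3, ?_, ?_, ?_, h12, h13, h23⟩
  · exact (Finset.mem_erase.1 (hT (by simp))).1
  · exact (Finset.mem_erase.1 (hT (by simp))).1
  · exact (Finset.mem_erase.1 (hT (by simp))).1

lemma bad_sum (hd : 4 ≤ d) (p : ℕ → I) (a : Fin d) (R : ℕ) :
    ∑' t, law d p (Bd a R t) ≠ ∞ := by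
  obtain ⟨b1, b2, b3, h1, h2, h3, h12, h13, h23⟩ := three_axes hd a
  have hle : ∀ t, law d p (Bd a R t) ≤
      ∫⁻ x, rf t x * cE R (II b1 t x).card ^ 3 ∂(law d p) +
      ∫⁻ x, rf t x * cE R (II b2 t x).card ^ 3 ∂(law d p) +
      ∫⁻ x, rf t x * cE R (II b3 t x).card ^ 3 ∂(law d p) := by
    intro t
    refine le_trans ?_ (three p h12 h13 h23 t R)
    have hm : Measurable fun x : ℕ → Bool × Dir d =>
        rf t x * ind b1 t R x * ind b2 t R x * ind b3 t R x := by
      refine meas_local t _ fun x y h => ?_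
      simp only [rf, ind]
      rw [h t le_rfl, pos_local h]
    refine meas_le_lintegral₀ hm.aemeasurable fun x hx => ?_
    obtain ⟨hx1, hx2⟩ := hx
    unfold rf ind
    rw [if_pos hx1, if_pos (hx2 b1 h1), if_pos (hx2 b2 h2), if_pos (hx2 b3 h3)]
    simp
  refine ne_top_of_le_ne_top ?_ (ENNReal.tsum_le_tsum hle)
  rw [ENNReal.tsum_add, ENNReal.tsum_add]
  have hfin : ∀ b : Fin d, ∑' t, ∫⁻ x, rf t x * cE R (II b t x).card ^ 3 ∂(law d p) ≠ ∞ := by
    intro b
    refine ne_top_of_le_ne_top ?_ (total_sum p b (fun k => cE R k ^ 3))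
    exact ENNReal.mul_ne_top (by simp) (cE_sum R)
  exact ENNReal.add_ne_top.2 ⟨ENNReal.add_ne_top.2 ⟨hfin b1, hfin b2⟩, hfin b3⟩

lemma pos_succ (x : ℕ → Bool × Dir d) (n : ℕ) (b : Fin d) :
    pos x (n + 1) b = pos x n b + vec (dirs x n) b := by
  unfold pos
  rw [Finset.sum_range_succ]
  rfl

lemma vec_ne {e : Dir d} {b : Fin d} (h : b ≠ e.1) : vec e b = 0 := by
  unfold vec
  rw [Pi.single_apply, if_neg h]

lemma vec_self (e : Dir d) : vec e e.1 = if e.2 then 1 else -1 := by
  unfold vec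
  rw [Pi.single_eq_same]

lemma pos_last (x : ℕ → Bool × Dir d) (n : ℕ) (b : Fin d) (hb : b ≠ (x (last x n)).2.1) :
    pos x n b = pos x (last x n) b := by
  induction n with
  | zero => rfl
  | succ n ih =>
    by_cases h : (x (n + 1)).1 = true
    · have h1 : last x (n + 1) = n + 1 := last_self x _ (Or.inr h)
      rw [h1]
    · have h1 : last x (n + 1) = last x n := by
        simp only [last]; rw [if_neg h]
      rw [h1] at hb ⊢
      rw [pos_succ, ih hb, dirs_eq, vec_ne hb, add_zero]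

lemma last_ge {x : ℕ → Bool × Dir d} {r : ℕ} (hr : (x r).1 = true) :
    ∀ n, r ≤ n → r ≤ last x n := by
  intro n hn
  induction n, hn using Nat.le_induction with
  | base => rw [last_self x r (Or.inr hr)]
  | succ n hn ih =>
    simp only [last]
    split_ifs
    · omega
    · exact ih

lemma norm_ge (x : ℕ → Bool × Dir d) (n : ℕ) (b : Fin d) :
    |(pos x n b : ℝ)| ≤ Real.sqrt (∑ i, (pos x n i : ℝ) ^ 2) := by
  refine Real.abs_le_sqrt ?_
  exact Finset.single_le_sum (f := fun i => (pos x n i : ℝ) ^ 2) (fun i _ => sq_nonneg _)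
    (Finset.mem_univ b)

lemma path_good (x : ℕ → Bool × Dir d) (hx : ∀ a R, ∀ᶠ t in atTop, x ∉ Bd a R t) :
    Tendsto (fun n => Real.sqrt (∑ i, (pos x n i : ℝ) ^ 2)) atTop atTop := by
  by_cases hf : ∃ᶠ n in atTop, (x n).1 = true
  · rw [tendsto_atTop]
    intro M
    obtain ⟨R, hR⟩ := exists_nat_ge M
    have h1 : ∀ᶠ t in atTop, ∀ a, x ∉ Bd a R t := eventually_all.2 fun a => hx a R
    obtain ⟨T, hT⟩ := eventually_atTop.1 h1
    obtain ⟨r, hr, hxr⟩ := (frequently_atTop.1 hf) (T + 1)
    filter_upwards [eventually_ge_atTop r] with n hn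
    have h2 := last_ge hxr n hn
    have h3 : (x (last x n)).1 = true := by
      rcases last_spec x n with h | h
      · omega
      · exact h
    have h4 := hT (last x n) (by omega) (x (last x n)).2.1
    have h5 : ∃ b, b ≠ (x (last x n)).2.1 ∧ (R : ℤ) < |pos x (last x n) b| := by
      by_contra hc
      push Not at hc
      exact h4 ⟨h3, hc⟩
    obtain ⟨b, hb, h6⟩ := h5
    rw [← pos_last x n b hb] at h6
    have h7 : (R : ℝ) < |(pos x n b : ℝ)| := by exact_mod_cast h6
    exact hR.trans (h7.le.trans (norm_ge x n b))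
  · rw [not_frequently] at hf
    obtain ⟨N, hN⟩ := eventually_atTop.1 hf
    have h2 : ∀ n, N ≤ n → dirs x n = dirs x N := by
      intro n hn
      induction n, hn using Nat.le_induction with
      | base => rfl
      | succ n hn ih =>
        have h3 : ¬ (x (n + 1)).1 = true := hN (n + 1) (by omega)
        show (if (x (n + 1)).1 then (x (n + 1)).2 else dirs x n) = _
        rw [if_neg h3, ih]
    set e := dirs x N with he
    have h4 : ∀ k, pos x (N + k) e.1 = pos x N e.1 + k * (if e.2 then 1 else -1) := by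
      intro k
      induction k with
      | zero => simp
      | succ k ih =>
        rw [← add_assoc, pos_succ, ih, h2 (N + k) (by omega), vec_self]
        push_cast
        ring
    have h5 : ∀ k : ℕ, (k : ℝ) - |(pos x N e.1 : ℝ)| ≤ |(pos x (N + k) e.1 : ℝ)| := by
      intro k
      rw [h4]
      push_cast
      have h6 : |(k : ℝ) * (if e.2 then 1 else -1)| = k := by
        split_ifs <;> simp
      have h7 := abs_sub_abs_le_abs_sub ((k : ℝ) * (if e.2 then 1 else -1))
        (-(pos x N e.1 : ℝ))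
      rw [h6, abs_neg] at h7
      refine h7.trans (le_of_eq ?_)
      congr 1
      ring
    have h8 : Tendsto (fun k : ℕ => Real.sqrt (∑ i, (pos x (k + N) i : ℝ) ^ 2)) atTop atTop := by
      have h9 : Tendsto (fun k : ℕ => (k : ℝ) - |(pos x N e.1 : ℝ)|) atTop atTop :=
        tendsto_atTop_add_const_right atTop _ tendsto_natCast_atTop_atTop
      refine tendsto_atTop_mono (fun k => ?_) h9
      rw [add_comm k N]
      exact (h5 k).trans (norm_ge x (N + k) e.1)
    exact (tendsto_add_atTop_iff_nat N).1 h8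

/-- In dimension at least four the walk is always strongly transient. -/
theorem always (hd : 4 ≤ d) (p : ℕ → I) : StronglyTransient d p := by
  have h1 : ∀ᵐ x ∂(law d p), ∀ a R, ∀ᶠ t in atTop, x ∉ Bd a R t := by
    rw [ae_all_iff]
    intro a
    rw [ae_all_iff]
    intro R
    exact ae_eventually_notMem (bad_sum hd p a R)
  unfold StronglyTransient
  filter_upwards [h1] with x hx
  exact path_good x hx

end Pool.Agent.Q211.CRW
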