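import Pool.Agent.Q211.CRW.Main

open Finset

namespace Pool.Agent.Q211.CRW

/-- Sperner for subsets of a finite set. -/
lemma sperner' (I : Finset ℕ) (F : Finset (Finset ℕ)) (hF : ∀ P ∈ F, P ⊆ I)
    (ha : ∀ P ∈ F, ∀ Q ∈ F, P ⊆ Q → P = Q) : F.card ≤ I.card.choose (I.card / 2) := by
  classical
  set g : Finset ℕ → Finset {n // n ∈ I} := fun P => P.subtype (· ∈ I) with hg
  have hmap : ∀ P ⊆ I, (g P).map (Function.Embedding.subtype _) = P := by
    intro P hP
    rw [hg]
    simp only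
    rw [Finset.subtype_map, Finset.filter_true_of_mem]
    exact fun x hx => hP hx
  have hinj : Set.InjOn g F := by
    intro P hP Q hQ h
    rw [← hmap P (hF P hP), ← hmap Q (hF Q hQ), h]
  have h1 : (F.image g).card = F.card := Finset.card_image_of_injOn hinj
  have h2 : IsAntichain (· ⊆ ·) ((F.image g : Finset (Finset {n // n ∈ I})) : Set (Finset {n // n ∈ I})) := by
    intro A hA B hB hne hs
    obtain ⟨P, hP, rfl⟩ := Finset.mem_image.1 (Finset.mem_coe.1 hA)
    obtain ⟨Q, hQ, rfl⟩ := Finset.mem_image.1 (Finset.mem_coe.1 hB)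
    apply hne
    have h3 : P ⊆ Q := by
      rw [← hmap P (hF P hP), ← hmap Q (hF Q hQ)]
      exact Finset.map_subset_map.2 hs
    rw [ha P hP Q hQ h3]
  have h3 := h2.sperner
  rw [h1] at h3
  simpa using h3

/-- Littlewood–Offord. -/
lemma lo (I Q : Finset ℕ) (hQ : Q ⊆ I) (a : ℕ → ℤ) (ha : ∀ n ∈ I, 1 ≤ a n) (y : ℤ) :
    (I.powerset.filter fun A =>
      ∑ n ∈ I, a n * (if n ∈ symmDiff A Q then 1 else -1) = y).card ≤
      I.card.choose (I.card / 2) := by
  classical
  have hinj : Set.InjOn (fun A : Finset ℕ => symmDiff A Q)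
      ((I.powerset.filter fun A =>
        ∑ n ∈ I, a n * (if n ∈ symmDiff A Q then (1 : ℤ) else -1) = y : Finset (Finset ℕ)) :
        Set (Finset ℕ)) := by
    intro A _ B _ h
    exact symmDiff_left_injective Q h
  rw [← Finset.card_image_of_injOn hinj]
  refine sperner' I _ ?_ ?_
  · intro P hP
    obtain ⟨A, hA, rfl⟩ := Finset.mem_image.1 hP
    have hA' := Finset.mem_powerset.1 (Finset.mem_filter.1 hA).1
    intro n hn
    rcases Finset.mem_symmDiff.1 hn with h | h
    · exact hA' h.1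
    · exact hQ h.1
  · intro P hP P' hP' hs
    obtain ⟨A, hA, rfl⟩ := Finset.mem_image.1 hP
    obtain ⟨B, hB, rfl⟩ := Finset.mem_image.1 hP'
    have h1 := (Finset.mem_filter.1 hA).2
    have h2 := (Finset.mem_filter.1 hB).2
    have hB' := Finset.mem_powerset.1 (Finset.mem_filter.1 hB).1
    by_contra hne
    have hss : symmDiff A Q ⊂ symmDiff B Q := lt_of_le_of_ne hs hne
    obtain ⟨n, hn1, hn2⟩ := Finset.exists_of_ssubset hss
    have hnI : n ∈ I := by
      rcases Finset.mem_symmDiff.1 hn1 with h | h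
      · exact hB' h.1
      · exact hQ h.1
    have h3 : ∑ n ∈ I, a n * (if n ∈ symmDiff A Q then (1 : ℤ) else -1) <
        ∑ n ∈ I, a n * (if n ∈ symmDiff B Q then (1 : ℤ) else -1) := by
      refine Finset.sum_lt_sum ?_ ⟨n, hnI, ?_⟩
      · intro k hk
        have := ha k hk
        by_cases h4 : k ∈ symmDiff A Q
        · rw [if_pos h4, if_pos (hs h4)]
        · rw [if_neg h4]
          split_ifs <;> linarith
      · rw [if_neg hn2, if_pos hn1]
        have := ha n hnI
        linarith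
    linarith

/-- The central binomial bound. -/
lemma cb_bound (n : ℕ) : (n.centralBinom : ℝ) ^ 2 * (2 * n + 1) ≤ 16 ^ n := by
  induction n with
  | zero => simp
  | succ n ih =>
    have h1 : ((n : ℝ) + 1) * ((n + 1).centralBinom : ℝ) = 2 * (2 * n + 1) * n.centralBinom := by
      exact_mod_cast Nat.succ_mul_centralBinom_succ n
    have h2 : ((n : ℝ) + 1) ^ 2 * (((n + 1).centralBinom : ℝ) ^ 2 * (2 * (n + 1 : ℕ) + 1)) ≤
        ((n : ℝ) + 1) ^ 2 * 16 ^ (n + 1) := by
      have h3 : ((n : ℝ) + 1) ^ 2 * (((n + 1).centralBinom : ℝ) ^ 2 * (2 * (n + 1 : ℕ) + 1)) =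
          4 * (2 * n + 1) * (2 * n + 3) * ((n.centralBinom : ℝ) ^ 2 * (2 * n + 1)) := by
        push_cast
        calc _ = (((n : ℝ) + 1) * ((n + 1).centralBinom : ℝ)) ^ 2 * (2 * n + 3) := by ring
          _ = _ := by rw [h1]; ring
      rw [h3]
      have h4 : (4 : ℝ) * (2 * n + 1) * (2 * n + 3) ≤ 16 * (n + 1) ^ 2 := by nlinarith
      calc _ ≤ 16 * ((n : ℝ) + 1) ^ 2 * 16 ^ n :=
            mul_le_mul h4 ih (by positivity) (by positivity)
        _ = _ := by ring
    exact le_of_mul_le_mul_left h2 (by positivity)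

/-- The normalised middle binomial coefficient. -/
noncomputable def cc (k : ℕ) : ℝ := (k.choose (k / 2) : ℝ) / 2 ^ k

lemma cc_nonneg (k : ℕ) : 0 ≤ cc k := by unfold cc; positivity

lemma cc_sq (k : ℕ) : cc k ^ 2 ≤ 1 / ((k : ℝ) + 1) := by
  unfold cc
  rw [div_pow, div_le_div_iff₀ (by positivity) (by positivity), one_mul]
  rcases Nat.even_or_odd' k with ⟨n, rfl | rfl⟩
  · have h := cb_bound n
    have h1 : 2 * n / 2 = n := by omega
    rw [h1]
    have h2 : ((2 * n).choose n : ℝ) = n.centralBinom := by rw [Nat.centralBinom]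
    rw [h2]
    calc _ ≤ (16 : ℝ) ^ n := by push_cast; exact h
      _ = _ := by rw [← pow_mul, show 2 * n * 2 = 4 * n by ring, pow_mul]; norm_num
  · have h := cb_bound (n + 1)
    have h1 : (2 * n + 1) / 2 = n := by omega
    rw [h1]
    have h2 : 2 * ((2 * n + 1).choose n : ℝ) = (n + 1).centralBinom := by
      have h3 : (n + 1).centralBinom = 2 * (2 * n + 1).choose n := by
        rw [Nat.centralBinom, show 2 * (n + 1) = (2 * n + 1) + 1 by ring, Nat.choose_succ_succ,
          Nat.choose_symm_half]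
        ring
      rw [h3]; push_cast; ring
    have h4 : ((2 * n + 1).choose n : ℝ) = (n + 1).centralBinom / 2 := by rw [← h2]; ring
    rw [h4]
    push_cast at h ⊢
    have h5 : ((n + 1).centralBinom : ℝ) ^ 2 * (2 * n + 2) ≤ 16 ^ (n + 1) := by
      refine le_trans ?_ h
      have : (0 : ℝ) ≤ ((n + 1).centralBinom : ℝ) ^ 2 := by positivity
      nlinarith
    have h6 : ((2 : ℝ) ^ (2 * n + 1)) ^ 2 = 16 ^ (n + 1) / 4 := by
      rw [← pow_mul, show (2 * n + 1) * 2 = 4 * n + 2 by ring, pow_add, pow_mul, pow_succ]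
      norm_num; ring
    rw [h6]
    calc _ = ((n + 1).centralBinom : ℝ) ^ 2 * (2 * n + 2) / 4 := by ring
      _ ≤ _ := by linarith

lemma cc_cube_summable : Summable fun k => cc k ^ 3 := by
  have h1 : Summable fun k : ℕ => 1 / ((k : ℝ) + 1) ^ (3 / 2 : ℝ) := by
    have := (Real.summable_one_div_nat_rpow (p := 3 / 2)).2 (by norm_num)
    have h2 := (summable_nat_add_iff 1).2 this
    refine h2.congr fun k => ?_
    push_cast
    rfl
  refine Summable.of_nonneg_of_le (fun k => pow_nonneg (cc_nonneg k) 3) (fun k => ?_) h1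
  have h2 := cc_sq k
  have h3 : cc k ^ 3 = (cc k ^ 2) ^ (3 / 2 : ℝ) := by
    rw [← Real.rpow_natCast, ← Real.rpow_natCast, ← Real.rpow_mul (cc_nonneg k)]
    norm_num
  rw [h3]
  calc (cc k ^ 2) ^ (3 / 2 : ℝ) ≤ (1 / ((k : ℝ) + 1)) ^ (3 / 2 : ℝ) :=
        Real.rpow_le_rpow (by positivity) h2 (by norm_num)
    _ = _ := by rw [Real.div_rpow (by norm_num) (by positivity), Real.one_rpow]

end Pool.Agent.Q211.CRW
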