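import Pool.Agent.Q211.CRW.Basic

open MeasureTheory ProbabilityTheory Filter Finset
open scoped unitInterval ENNReal

namespace Pool.Agent.Q211.CRW

/-- Reflection of a direction. -/
def flip (e : Dir 1) : Dir 1 := (e.1, !e.2)

def flipE : Dir 1 ≃ Dir 1 where
  toFun := flip
  invFun := flip
  left_inv e := by simp [flip]
  right_inv e := by simp [flip]

lemma unif_flip : (PMF.uniformOfFintype (Dir 1)).toMeasure.map flip =
    (PMF.uniformOfFintype (Dir 1)).toMeasure := by
  refine Measure.ext_of_singleton fun a => ?_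
  rw [Measure.map_apply (measurable_of_finite _) (measurableSet_singleton a)]
  have h1 : flip ⁻¹' {a} = {flip a} := by
    ext e
    simp only [Set.mem_preimage, Set.mem_singleton_iff]
    constructor
    · intro h; rw [← h]; simp [flip]
    · intro h; rw [h]; simp [flip]
  rw [h1, PMF.toMeasure_apply_singleton _ _ (measurableSet_singleton _),
    PMF.toMeasure_apply_singleton _ _ (measurableSet_singleton _)]
  simp

/-- Reflection of the whole sequence. -/
def Fl (x : ℕ → Bool × Dir 1) : ℕ → Bool × Dir 1 := fun n => Prod.map id flip (x n)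

lemma law_Fl (p : ℕ → I) : (law 1 p).map Fl = law 1 p := by
  have h := Measure.infinitePi_map_pi (fun n => stepLaw 1 (p n))
    (f := fun (_ : ℕ) => (Prod.map id flip : Bool × Dir 1 → Bool × Dir 1))
    (fun _ => measurable_id.prodMap (measurable_of_finite _))
  have h2 : ∀ n, (stepLaw 1 (p n)).map (Prod.map id flip) = stepLaw 1 (p n) := by
    intro n
    unfold stepLaw
    rw [← Measure.map_prod_map _ _ measurable_id (measurable_of_finite _), unif_flip,
      Measure.map_id]
  simp only [h2] at h
  exact h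

lemma dirs_Fl (x : ℕ → Bool × Dir 1) (n : ℕ) : dirs (Fl x) n = flip (dirs x n) := by
  induction n with
  | zero => rfl
  | succ n ih =>
    show (if (x (n + 1)).1 then flip (x (n + 1)).2 else dirs (Fl x) n) =
      flip (if (x (n + 1)).1 then (x (n + 1)).2 else dirs x n)
    rw [ih]
    split_ifs <;> rfl

lemma S_Fl (x : ℕ → Bool × Dir 1) (n : ℕ) : S (Fl x) n = -S x n := by
  unfold S
  rw [← Finset.sum_neg_distrib]
  refine Finset.sum_congr rfl fun k _ => ?_
  rw [dirs_Fl]
  cases h : (dirs x k).2 <;> simp [flip, h]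

lemma Am_eq : Am = Fl ⁻¹' Ap := by
  ext x
  show ((∃ᶠ n in atTop, (x n).1 = true) ∧ Tendsto (fun n => S x n) atTop atBot) ↔
    ((∃ᶠ n in atTop, (x n).1 = true) ∧ Tendsto (fun n => S (Fl x) n) atTop atTop)
  refine and_congr_right fun _ => ?_
  simp only [S_Fl]
  rw [tendsto_neg_atTop_iff]

lemma meas_Fl : Measurable Fl :=
  measurable_pi_lambda _ fun n =>
    (measurable_id.prodMap (measurable_of_finite _)).comp (measurable_pi_apply n)

lemma law_Am (p : ℕ → I) : law 1 p Am = law 1 p Ap := by
  rw [Am_eq, ← Measure.map_apply meas_Fl meas_Ap, law_Fl]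

/-- An integer sequence with steps `± 1` whose modulus tends to infinity has a limit. -/
lemma dichotomy (x : ℕ → Bool × Dir 1) (h : Tendsto (fun n => |(S x n : ℝ)|) atTop atTop) :
    Tendsto (fun n => S x n) atTop atTop ∨ Tendsto (fun n => S x n) atTop atBot := by
  obtain ⟨N, hN⟩ := eventually_atTop.1 (h.eventually_ge_atTop 1)
  have hN' : ∀ n, N ≤ n → 1 ≤ |S x n| := by
    intro n hn
    have := hN n hn
    exact_mod_cast this
  have hstep : ∀ n, S x (n + 1) = S x n + 1 ∨ S x (n + 1) = S x n - 1 := by
    intro n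
    rw [S_succ]
    split_ifs
    · left; ring
    · right; ring
  have h' : Tendsto (fun n => |S x n|) atTop atTop := by
    have : Tendsto (fun n => ((|S x n| : ℤ) : ℝ)) atTop atTop := by simpa using h
    exact tendsto_intCast_atTop_iff.1 this
  rcases le_or_gt 0 (S x N) with h0 | h0
  · left
    have hpos : ∀ n, N ≤ n → 0 ≤ S x n := by
      intro n hn
      induction n, hn using Nat.le_induction with
      | base => exact h0
      | succ n hn ih =>
        have h1 := hN' n hn
        rw [abs_of_nonneg ih] at h1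
        rcases hstep n with h2 | h2 <;> omega
    refine h'.congr' ?_
    filter_upwards [eventually_ge_atTop N] with n hn
    exact abs_of_nonneg (hpos n hn)
  · right
    have hneg : ∀ n, N ≤ n → S x n ≤ 0 := by
      intro n hn
      induction n, hn using Nat.le_induction with
      | base => exact h0.le
      | succ n hn ih =>
        have h1 := hN' n hn
        rw [abs_of_nonpos ih] at h1
        rcases hstep n with h2 | h2 <;> omega
    rw [← tendsto_neg_atTop_iff]
    refine h'.congr' ?_
    filter_upwards [eventually_ge_atTop N] with n hn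
    exact abs_of_nonpos (hneg n hn)

/-- The event of a refresh at time `n`. -/
def Rf (n : ℕ) : Set (ℕ → Bool × Dir 1) := {x | (x n).1 = true}

lemma law_Rf (p : ℕ → I) (n : ℕ) : law 1 p (Rf n) = ENNReal.ofReal (p n) := by
  have h1 : Rf n = (fun x : ℕ → Bool × Dir 1 => x n) ⁻¹' ({true} ×ˢ Set.univ) := by
    ext x; simp [Rf]
  rw [h1, ← Measure.map_apply (measurable_pi_apply n)
    ((measurableSet_singleton true).prod MeasurableSet.univ)]
  have h2 := Measure.infinitePi_map_eval (fun n => stepLaw 1 (p n)) n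
  unfold law
  rw [h2, stepLaw, Measure.prod_prod, measure_univ, mul_one]
  rw [bernoulliMeasure_apply_of_mem_of_notMem (p n) (measurableSet_singleton true)
    (Set.mem_singleton true) (by simp)]
  rw [ENNReal.ofReal]
  congr 1
  ext
  rw [Real.coe_toNNReal _ (p n).2.1]
  rfl

lemma meas_Rf (n : ℕ) : MeasurableSet (Rf n) :=
  (measurable_pi_apply n).fst (measurableSet_singleton true)

lemma freq_ae (p : ℕ → I) (hp : ∑' n, ENNReal.ofReal (p n) = ∞) :
    ∀ᵐ x ∂(law 1 p), ∃ᶠ n in atTop, (x n).1 = true := by
  have hind : iIndepSet Rf (law 1 p) := by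
    have h1 : iIndep sg (law 1 p) := iIndepFun_infinitePi (P := fun n => stepLaw 1 (p n))
      (X := fun n (y : Bool × Dir 1) => y) (fun _ => measurable_id)
    rw [iIndepSet_iff_iIndep]
    refine iIndep_of_iIndep_of_le h1 fun n => ?_
    refine MeasurableSpace.generateFrom_le fun t ht => ?_
    rw [Set.mem_singleton_iff.1 ht]
    exact ⟨{y | y.1 = true}, measurable_fst (measurableSet_singleton true), rfl⟩
  have h2 := measure_limsup_eq_one (fun n => meas_Rf n) hind (by simpa only [law_Rf] using hp)
  have h3 : limsup Rf atTop = {x | ∃ᶠ n in atTop, (x n).1 = true} := by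
    ext x
    rw [mem_limsup_iff_frequently_mem]
    rfl
  rw [h3] at h2
  exact (mem_ae_iff_prob_eq_one meas_freq).2 h2

/-- With infinitely many refreshes the walk on the line is not strongly transient. -/
theorem not_transient (p : ℕ → I) (hp : ∑' n, ENNReal.ofReal (p n) = ∞) :
    ¬ StronglyTransient 1 p := by
  intro h
  have h1 : ∀ᵐ x ∂(law 1 p), x ∈ Ap ∪ Am := by
    filter_upwards [h, freq_ae p hp] with x hx hf
    simp only [norm_eq] at hx
    rcases dichotomy x hx with h2 | h2
    · exact Or.inl ⟨hf, h2⟩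
    · exact Or.inr ⟨hf, h2⟩
  have hAm : MeasurableSet Am := by rw [Am_eq]; exact meas_Fl meas_Ap
  have h2 : law 1 p (Ap ∪ Am) = 1 := (mem_ae_iff_prob_eq_one (meas_Ap.union hAm)).1 h1
  have h3 : (1 : ℝ≥0∞) ≤ law 1 p Ap + law 1 p Am := h2 ▸ measure_union_le _ _
  rw [law_Am] at h3
  rcases zero_one p with h4 | h4
  · rw [h4] at h3; simp at h3
  · have h5 : law 1 p Am = 1 := by rw [law_Am, h4]
    have h6 : Ap ∈ ae (law 1 p) := (mem_ae_iff_prob_eq_one meas_Ap).2 h4
    have h7 : Am ∈ ae (law 1 p) := by
      refine (mem_ae_iff_prob_eq_one ?_).2 h5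
      rw [Am_eq]; exact meas_Fl meas_Ap
    obtain ⟨x, hx1, hx2⟩ := (Filter.nonempty_of_mem (inter_mem h6 h7))
    obtain ⟨n, h8, h9⟩ := ((hx1.2.eventually_gt_atTop 0).and (hx2.2.eventually_lt_atBot 0)).exists
    omega

/-- Finitely many refreshes: the walk goes to infinity. -/
theorem transient (p : ℕ → I) (hp : ∑' n, ENNReal.ofReal (p n) ≠ ∞) :
    StronglyTransient 1 p := by
  have h1 : ∀ᵐ x ∂(law 1 p), ∀ᶠ n in atTop, x ∉ Rf n :=
    ae_eventually_notMem (by simpa only [law_Rf] using hp)
  unfold StronglyTransient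
  filter_upwards [h1] with x hx
  simp only [norm_eq]
  obtain ⟨N, hN⟩ := eventually_atTop.1 hx
  have h2 : ∀ n, N ≤ n → dirs x n = dirs x N := by
    intro n hn
    induction n, hn using Nat.le_induction with
    | base => rfl
    | succ n hn ih =>
      have h3 : ¬ (x (n + 1)).1 = true := hN (n + 1) (by omega)
      show (if (x (n + 1)).1 then (x (n + 1)).2 else dirs x n) = _
      rw [if_neg h3, ih]
  have h4 : ∀ k, S x (N + k) = S x N + k * (if (dirs x N).2 then 1 else -1) := by
    intro k
    induction k with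
    | zero => simp
    | succ k ih =>
      rw [← add_assoc, S_succ, ih, h2 (N + k) (by omega)]
      push_cast
      ring
  have h5 : ∀ k : ℕ, (k : ℝ) - |(S x N : ℝ)| ≤ |(S x (N + k) : ℝ)| := by
    intro k
    rw [h4]
    push_cast
    have h6 : |(k : ℝ) * (if (dirs x N).2 then 1 else -1)| = k := by
      split_ifs <;> simp
    have h7 := abs_sub_abs_le_abs_sub ((k : ℝ) * (if (dirs x N).2 then 1 else -1))
      (-(S x N : ℝ))
    rw [h6, abs_neg] at h7
    refine h7.trans (le_of_eq ?_)
    congr 1
    ring
  have h8 : Tendsto (fun k : ℕ => |(S x (k + N) : ℝ)|) atTop atTop := by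
    have h9 : Tendsto (fun k : ℕ => (k : ℝ) - |(S x N : ℝ)|) atTop atTop :=
      tendsto_atTop_add_const_right atTop _ tendsto_natCast_atTop_atTop
    refine tendsto_atTop_mono (fun k => ?_) h9
    rw [add_comm k N]
    exact h5 k
  exact (tendsto_add_atTop_iff_nat N).1 h8

end Pool.Agent.Q211.CRW
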