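import Pool.Agent.Q211.CRW.LO

open Finset

namespace Pool.Agent.Q211.CRW

variable {d : ℕ}

/-- The last refresh time. -/
def last (x : ℕ → Bool × Dir d) : ℕ → ℕ
  | 0 => 0
  | n + 1 => if (x (n + 1)).1 then n + 1 else last x n

lemma last_le (x : ℕ → Bool × Dir d) (k : ℕ) : last x k ≤ k := by
  induction k with
  | zero => simp [last]
  | succ k ih =>
    simp only [last]
    split_ifs <;> omega

lemma last_spec (x : ℕ → Bool × Dir d) (k : ℕ) : last x k = 0 ∨ (x (last x k)).1 = true := by
  induction k with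
  | zero => left; rfl
  | succ k ih =>
    simp only [last]
    split_ifs with h
    · right; exact h
    · exact ih

lemma last_self (x : ℕ → Bool × Dir d) (k : ℕ) (h : k = 0 ∨ (x k).1 = true) : last x k = k := by
  cases k with
  | zero => rfl
  | succ k =>
    simp only [last]
    rw [if_pos]
    rcases h with h | h
    · omega
    · exact h

lemma dirs_eq (x : ℕ → Bool × Dir d) (k : ℕ) : dirs x k = (x (last x k)).2 := by
  induction k with
  | zero => rfl
  | succ k ih =>
    simp only [dirs, last]
    split_ifs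
    · rfl
    · exact ih

/-- The number of steps in the period starting at `n`. -/
def cnt (x : ℕ → Bool × Dir d) (t n : ℕ) : ℕ := ((range t).filter fun k => last x k = n).card

/-- The periods before `t` along the axis `b`. -/
def II (b : Fin d) (t : ℕ) (x : ℕ → Bool × Dir d) : Finset ℕ :=
  (range t).filter fun n => (n = 0 ∨ (x n).1 = true) ∧ (x n).2.1 = b

/-- The sign of a direction. -/
def sg2 (e : Bool × Dir d) : ℤ := if e.2.2 then 1 else -1

lemma pos_formula (x : ℕ → Bool × Dir d) (t : ℕ) (b : Fin d) :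
    pos x t b = ∑ n ∈ II b t x, (cnt x t n : ℤ) * sg2 (x n) := by
  classical
  have h1 : pos x t b = ∑ k ∈ range t,
      (fun n => if (x n).2.1 = b then sg2 (x n) else 0) (last x k) := by
    unfold pos
    rw [Finset.sum_apply]
    refine Finset.sum_congr rfl fun k _ => ?_
    rw [dirs_eq, vec, Pi.single_apply]
    simp only [sg2]
    by_cases h : (x (last x k)).2.1 = b
    · rw [if_pos h.symm, if_pos h]
    · rw [if_neg (fun h' => h h'.symm), if_neg h]
  rw [h1, ← Finset.sum_fiberwise_of_maps_to (s := range t) (t := range t) (g := last x)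
    (fun k hk => Finset.mem_range.2 (lt_of_le_of_lt (last_le x k) (Finset.mem_range.1 hk)))]
  have h2 : ∀ n ∈ range t, ∑ k ∈ range t with last x k = n,
      (fun n => if (x n).2.1 = b then sg2 (x n) else 0) (last x k) =
      (cnt x t n : ℤ) * (if (x n).2.1 = b then sg2 (x n) else 0) := by
    intro n _
    rw [cnt, ← nsmul_eq_mul, ← Finset.sum_const]
    refine Finset.sum_congr rfl fun k hk => ?_
    rw [(Finset.mem_filter.1 hk).2]
  rw [Finset.sum_congr rfl h2]
  symm
  rw [II]
  rw [Finset.sum_filter]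
  refine Finset.sum_congr rfl fun n hn => ?_
  by_cases h3 : (x n).2.1 = b
  · by_cases h4 : n = 0 ∨ (x n).1 = true
    · rw [if_pos ⟨h4, h3⟩, if_pos h3]
    · rw [if_neg (fun h => h4 h.1), if_pos h3]
      have h5 : cnt x t n = 0 := by
        rw [cnt, Finset.card_eq_zero, Finset.filter_eq_empty_iff]
        intro k _ hk
        apply h4
        rcases last_spec x k with h | h
        · left; rw [← hk]; exact h
        · right; rw [← hk]; exact h
      rw [h5]; simp
  · rw [if_neg (fun h => h3 h.2), if_neg h3, mul_zero]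

/-- Flip the signs at the times in `A`. -/
def FA (A : Finset ℕ) (x : ℕ → Bool × Dir d) : ℕ → Bool × Dir d := fun n =>
  if n ∈ A then ((x n).1, ((x n).2.1, !(x n).2.2)) else x n

lemma FA_fst (A : Finset ℕ) (x : ℕ → Bool × Dir d) (n : ℕ) : (FA A x n).1 = (x n).1 := by
  unfold FA; split_ifs <;> rfl

lemma FA_axis (A : Finset ℕ) (x : ℕ → Bool × Dir d) (n : ℕ) : (FA A x n).2.1 = (x n).2.1 := by
  unfold FA; split_ifs <;> rfl

lemma FA_last (A : Finset ℕ) (x : ℕ → Bool × Dir d) (k : ℕ) : last (FA A x) k = last x k := by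
  induction k with
  | zero => rfl
  | succ k ih => simp only [last, FA_fst, ih]

lemma FA_cnt (A : Finset ℕ) (x : ℕ → Bool × Dir d) (t n : ℕ) : cnt (FA A x) t n = cnt x t n := by
  simp only [cnt, FA_last]

lemma FA_II (A : Finset ℕ) (x : ℕ → Bool × Dir d) (b : Fin d) (t : ℕ) :
    II b t (FA A x) = II b t x := by
  simp only [II, FA_fst, FA_axis]

lemma FA_pos_ne {A : Finset ℕ} {x : ℕ → Bool × Dir d} {b b' : Fin d} {t : ℕ} (hb : b' ≠ b)
    (hA : A ⊆ II b t x) : pos (FA A x) t b' = pos x t b' := by
  rw [pos_formula, pos_formula, FA_II]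
  refine Finset.sum_congr rfl fun n hn => ?_
  rw [FA_cnt]
  have h1 : n ∉ A := by
    intro h
    have h2 := (Finset.mem_filter.1 (hA h)).2.2
    have h3 := (Finset.mem_filter.1 hn).2.2
    exact hb (h3.symm.trans h2)
  have h2 : FA A x n = x n := by unfold FA; rw [if_neg h1]
  rw [h2]

lemma FA_pos (A : Finset ℕ) (x : ℕ → Bool × Dir d) (b : Fin d) (t : ℕ) :
    pos (FA A x) t b = ∑ n ∈ II b t x, (cnt x t n : ℤ) *
      (if n ∈ symmDiff A ((II b t x).filter fun n => (x n).2.2 = true) then 1 else -1) := by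
  rw [pos_formula, FA_II]
  refine Finset.sum_congr rfl fun n hn => ?_
  rw [FA_cnt]
  congr 1
  simp only [Finset.mem_symmDiff, Finset.mem_filter]
  unfold FA sg2
  by_cases h : n ∈ A
  · cases h2 : (x n).2.2 <;> simp [h, h2, hn]
  · cases h2 : (x n).2.2 <;> simp [h, h2, hn]

lemma cnt_pos {x : ℕ → Bool × Dir d} {b : Fin d} {t n : ℕ} (hn : n ∈ II b t x) :
    1 ≤ (cnt x t n : ℤ) := by
  have h1 := Finset.mem_filter.1 hn
  have h2 : n ∈ (range t).filter fun k => last x k = n :=
    Finset.mem_filter.2 ⟨h1.1, last_self x n h1.2.1⟩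
  have h3 : 0 < cnt x t n := Finset.card_pos.2 ⟨n, h2⟩
  exact_mod_cast h3

/-- The number of sign patterns for which the coordinate is small. -/
lemma count_small (x : ℕ → Bool × Dir d) (b : Fin d) (t R : ℕ) :
    ((II b t x).powerset.filter fun A => |pos (FA A x) t b| ≤ R).card ≤
      (2 * R + 1) * (II b t x).card.choose ((II b t x).card / 2) := by
  classical
  have h1 : ((II b t x).powerset.filter fun A => |pos (FA A x) t b| ≤ R) ⊆
      (Finset.Icc (-(R : ℤ)) R).biUnion fun y =>
        (II b t x).powerset.filter fun A => pos (FA A x) t b = y := by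
    intro A hA
    rw [Finset.mem_filter] at hA
    rw [Finset.mem_biUnion]
    exact ⟨pos (FA A x) t b, Finset.mem_Icc.2 (abs_le.1 hA.2), Finset.mem_filter.2 ⟨hA.1, rfl⟩⟩
  refine (Finset.card_le_card h1).trans (Finset.card_biUnion_le.trans ?_)
  have h2 : ∀ y ∈ Finset.Icc (-(R : ℤ)) R,
      ((II b t x).powerset.filter fun A => pos (FA A x) t b = y).card ≤
      (II b t x).card.choose ((II b t x).card / 2) := by
    intro y _
    simp only [FA_pos]
    exact lo (II b t x) ((II b t x).filter fun n => (x n).2.2 = true) (Finset.filter_subset _ _)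
      (fun n => (cnt x t n : ℤ)) (fun n hn => cnt_pos hn) y
  refine (Finset.sum_le_sum h2).trans ?_
  rw [Finset.sum_const, smul_eq_mul]
  refine Nat.mul_le_mul_right _ ?_
  rw [Int.card_Icc]
  omega

end Pool.Agent.Q211.CRW
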