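import Pool.Agent.Q211.CRW.Path

open MeasureTheory ProbabilityTheory Filter Finset
open scoped unitInterval ENNReal

namespace Pool.Agent.Q211.CRW

variable {d : ℕ} [NeZero d]

lemma meas_local {β : Type*} [MeasurableSpace β] (t : ℕ) (g : (ℕ → Bool × Dir d) → β)
    (h : ∀ x y, (∀ n ≤ t, x n = y n) → g x = g y) : Measurable g := by
  let r : (ℕ → Bool × Dir d) → (Fin (t + 1) → Bool × Dir d) := fun x i => x i
  let ex : (Fin (t + 1) → Bool × Dir d) → (ℕ → Bool × Dir d) := fun z n =>
    if h : n < t + 1 then z ⟨n, h⟩ else (false, (0, false))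
  have h1 : g = (g ∘ ex) ∘ r := by
    funext x
    refine h _ _ fun n hn => ?_
    show x n = ex (r x) n
    simp only [ex, r]
    rw [dif_pos (by omega)]
  rw [h1]
  refine (measurable_of_finite (g ∘ ex)).comp ?_
  exact measurable_pi_lambda _ fun i => measurable_pi_apply (i : ℕ)

lemma unif_perm (τ : Equiv.Perm (Dir d)) : (PMF.uniformOfFintype (Dir d)).toMeasure.map τ =
    (PMF.uniformOfFintype (Dir d)).toMeasure := by
  refine Measure.ext_of_singleton fun a => ?_
  rw [Measure.map_apply (measurable_of_finite _) (measurableSet_singleton a)]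
  have h1 : τ ⁻¹' {a} = {τ.symm a} := by
    ext e
    simp only [Set.mem_preimage, Set.mem_singleton_iff]
    exact (Equiv.eq_symm_apply τ).symm
  rw [h1, PMF.toMeasure_apply_singleton _ _ (measurableSet_singleton _),
    PMF.toMeasure_apply_singleton _ _ (measurableSet_singleton _)]
  simp

/-- Permute the fresh directions. -/
def PM (τ : ℕ → Equiv.Perm (Dir d)) (x : ℕ → Bool × Dir d) : ℕ → Bool × Dir d := fun n =>
  Prod.map id (τ n) (x n)

lemma law_PM (p : ℕ → I) (τ : ℕ → Equiv.Perm (Dir d)) : (law d p).map (PM τ) = law d p := by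
  have h := Measure.infinitePi_map_pi (fun n => stepLaw d (p n))
    (f := fun (n : ℕ) => (Prod.map id (τ n) : Bool × Dir d → Bool × Dir d))
    (fun _ => measurable_id.prodMap (measurable_of_finite _))
  have h2 : ∀ n, (stepLaw d (p n)).map (Prod.map id (τ n)) = stepLaw d (p n) := by
    intro n
    unfold stepLaw
    rw [← Measure.map_prod_map _ _ measurable_id (measurable_of_finite _), unif_perm,
      Measure.map_id]
  simp only [h2] at h
  exact h

lemma meas_PM (τ : ℕ → Equiv.Perm (Dir d)) : Measurable (PM τ) :=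
  measurable_pi_lambda _ fun n =>
    (measurable_id.prodMap (measurable_of_finite _)).comp (measurable_pi_apply n)

lemma lint_PM (p : ℕ → I) (τ : ℕ → Equiv.Perm (Dir d)) (g : (ℕ → Bool × Dir d) → ℝ≥0∞)
    (hg : Measurable g) : ∫⁻ x, g (PM τ x) ∂(law d p) = ∫⁻ x, g x ∂(law d p) := by
  conv_rhs => rw [← law_PM p τ]
  rw [lintegral_map hg (meas_PM τ)]

/-- The reflection of a direction. -/
def flipD : Equiv.Perm (Dir d) where
  toFun e := (e.1, !e.2)
  invFun e := (e.1, !e.2)
  left_inv e := by simp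
  right_inv e := by simp

lemma FA_eq (A : Finset ℕ) : (FA A : (ℕ → Bool × Dir d) → _) =
    PM (fun n => if n ∈ A then flipD else Equiv.refl _) := by
  funext x n
  by_cases h : n ∈ A
  · simp only [FA, PM, if_pos h]; rfl
  · simp only [FA, PM, if_neg h]; rfl

lemma lint_FA (p : ℕ → I) (A : Finset ℕ) (g : (ℕ → Bool × Dir d) → ℝ≥0∞)
    (hg : Measurable g) : ∫⁻ x, g (FA A x) ∂(law d p) = ∫⁻ x, g x ∂(law d p) := by
  rw [FA_eq]
  exact lint_PM p _ g hg

lemma II_local {b : Fin d} {t : ℕ} {x y : ℕ → Bool × Dir d} (h : ∀ n ≤ t, x n = y n) :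
    II b t x = II b t y := by
  unfold II
  refine Finset.filter_congr fun n hn => ?_
  rw [h n (Finset.mem_range.1 hn).le]

lemma dirs_local {t : ℕ} {x y : ℕ → Bool × Dir d} (h : ∀ n ≤ t, x n = y n) :
    ∀ k ≤ t, dirs x k = dirs y k := by
  intro k
  induction k with
  | zero => intro _; simp only [dirs, h 0 (Nat.zero_le _)]
  | succ k ih =>
    intro hk
    simp only [dirs, h (k + 1) hk, ih (by omega)]

lemma pos_local {t : ℕ} {x y : ℕ → Bool × Dir d} (h : ∀ n ≤ t, x n = y n) :
    pos x t = pos y t := by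
  unfold pos
  refine Finset.sum_congr rfl fun k hk => ?_
  rw [dirs_local h k (Finset.mem_range.1 hk).le]

lemma FA_local {A : Finset ℕ} {t : ℕ} {x y : ℕ → Bool × Dir d} (h : ∀ n ≤ t, x n = y n) :
    ∀ n ≤ t, FA A x n = FA A y n := by
  intro n hn
  unfold FA
  rw [h n hn]

/-- The indicator of a small coordinate. -/
noncomputable def ind (b : Fin d) (t R : ℕ) (x : ℕ → Bool × Dir d) : ℝ≥0∞ :=
  if |pos x t b| ≤ R then 1 else 0

/-- The averaged bound. -/
noncomputable def cE (R k : ℕ) : ℝ≥0∞ := (2 * R + 1) * ((k.choose (k / 2) : ℝ≥0∞) / 2 ^ k)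

/-- One coordinate at a time. -/
lemma one_coord (p : ℕ → I) (b : Fin d) (t R : ℕ) (w : (ℕ → Bool × Dir d) → ℝ≥0∞)
    (hl : ∀ x y, (∀ n ≤ t, x n = y n) → w x = w y)
    (hw : ∀ A x, A ⊆ II b t x → w (FA A x) = w x) :
    ∫⁻ x, w x * ind b t R x ∂(law d p) ≤
      ∫⁻ x, w x * cE R (II b t x).card ∂(law d p) := by
  classical
  have h1 : ∀ x : ℕ → Bool × Dir d, w x * ind b t R x =
      ∑ A ∈ (range t).powerset, (if A ⊆ II b t x then
        ((2 : ℝ≥0∞) ^ (II b t x).card)⁻¹ * (w x * ind b t R x) else 0) := by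
    intro x
    rw [← Finset.sum_filter, Finset.sum_const]
    have h2 : ((range t).powerset.filter fun A => A ⊆ II b t x) = (II b t x).powerset := by
      ext A
      simp only [Finset.mem_filter, Finset.mem_powerset]
      exact ⟨fun h => h.2, fun h => ⟨h.trans (Finset.filter_subset _ _), h⟩⟩
    rw [h2, Finset.card_powerset, nsmul_eq_mul, ← mul_assoc]
    push_cast
    rw [ENNReal.mul_inv_cancel (by positivity) (by simp), one_mul]
  have hm : ∀ A : Finset ℕ, Measurable fun x : ℕ → Bool × Dir d => (if A ⊆ II b t x then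
        ((2 : ℝ≥0∞) ^ (II b t x).card)⁻¹ * (w x * ind b t R x) else 0) := by
    intro A
    refine meas_local t _ fun x y h => ?_
    rw [II_local h, hl x y h, ind, ind, pos_local h]
  have hm2 : ∀ A : Finset ℕ, Measurable fun x : ℕ → Bool × Dir d => (if A ⊆ II b t x then
        ((2 : ℝ≥0∞) ^ (II b t x).card)⁻¹ * (w x * ind b t R (FA A x)) else 0) := by
    intro A
    refine meas_local t _ fun x y h => ?_
    rw [II_local h, hl x y h, ind, ind, pos_local (FA_local h)]
  have h3 : ∫⁻ x, w x * ind b t R x ∂(law d p) = ∫⁻ x, ∑ A ∈ (range t).powerset,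
      (if A ⊆ II b t x then
        ((2 : ℝ≥0∞) ^ (II b t x).card)⁻¹ * (w x * ind b t R (FA A x)) else 0) ∂(law d p) := by
    rw [lintegral_congr h1, lintegral_finsetSum _ (fun A _ => hm A),
      lintegral_finsetSum _ (fun A _ => hm2 A)]
    refine Finset.sum_congr rfl fun A _ => ?_
    rw [← lint_FA p A _ (hm A)]
    refine lintegral_congr fun x => ?_
    rw [FA_II]
    by_cases h4 : A ⊆ II b t x
    · rw [if_pos h4, if_pos h4, hw A x h4]
    · rw [if_neg h4, if_neg h4]
  rw [h3]
  refine lintegral_mono fun x => ?_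
  show (∑ A ∈ (range t).powerset, (if A ⊆ II b t x then
        ((2 : ℝ≥0∞) ^ (II b t x).card)⁻¹ * (w x * ind b t R (FA A x)) else 0)) ≤ _
  rw [← Finset.sum_filter]
  have h2 : ((range t).powerset.filter fun A => A ⊆ II b t x) = (II b t x).powerset := by
    ext A
    simp only [Finset.mem_filter, Finset.mem_powerset]
    exact ⟨fun h => h.2, fun h => ⟨h.trans (Finset.filter_subset _ _), h⟩⟩
  rw [h2, ← Finset.mul_sum, ← Finset.mul_sum]
  have h5 : ∑ A ∈ (II b t x).powerset, ind b t R (FA A x) =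
      (((II b t x).powerset.filter fun A => |pos (FA A x) t b| ≤ R).card : ℝ≥0∞) := by
    unfold ind
    rw [Finset.sum_ite, Finset.sum_const_zero, add_zero, Finset.sum_const, nsmul_eq_mul, mul_one]
  rw [h5]
  have h6 : (((II b t x).powerset.filter fun A => |pos (FA A x) t b| ≤ R).card : ℝ≥0∞) ≤
      (2 * R + 1) * ((II b t x).card.choose ((II b t x).card / 2) : ℝ≥0∞) := by
    exact_mod_cast count_small x b t R
  calc ((2 : ℝ≥0∞) ^ (II b t x).card)⁻¹ * (w x *
        (((II b t x).powerset.filter fun A => |pos (FA A x) t b| ≤ R).card : ℝ≥0∞)) ≤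
      ((2 : ℝ≥0∞) ^ (II b t x).card)⁻¹ * (w x *
        ((2 * R + 1) * ((II b t x).card.choose ((II b t x).card / 2) : ℝ≥0∞))) := by gcongr
    _ = w x * cE R (II b t x).card := by
      unfold cE
      rw [div_eq_mul_inv]
      ring

end Pool.Agent.Q211.CRW
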