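import Pool.Agent.Q211.CRW.Prob

open MeasureTheory ProbabilityTheory Filter Finset
open scoped unitInterval ENNReal

namespace Pool.Agent.Q211.CRW

variable {d : ℕ} [NeZero d]

/-- The indicator of a refresh at time `t`. -/
noncomputable def rf (t : ℕ) (x : ℕ → Bool × Dir d) : ℝ≥0∞ := if (x t).1 = true then 1 else 0

/-- The indicator of a refresh at time `t` along the axis `b`. -/
noncomputable def rfb (b : Fin d) (t : ℕ) (x : ℕ → Bool × Dir d) : ℝ≥0∞ :=
  if (x t).1 = true ∧ (x t).2.1 = b then 1 else 0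

/-- Swap two axes at time `t`. -/
def SW (t : ℕ) (b b' : Fin d) (x : ℕ → Bool × Dir d) : ℕ → Bool × Dir d :=
  PM (fun n => if n = t then (Equiv.swap b b').prodCongr (Equiv.refl Bool) else Equiv.refl _) x

lemma SW_ne {t : ℕ} {b b' : Fin d} (x : ℕ → Bool × Dir d) {n : ℕ} (h : n ≠ t) :
    SW t b b' x n = x n := by
  simp only [SW, PM, if_neg h]; rfl

lemma SW_eq {t : ℕ} {b b' : Fin d} (x : ℕ → Bool × Dir d) :
    SW t b b' x t = ((x t).1, (Equiv.swap b b' (x t).2.1, (x t).2.2)) := by
  simp only [SW, PM, if_true]; rfl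

lemma swap_axis (p : ℕ → I) (b b' : Fin d) (t : ℕ) (F : ℕ → ℝ≥0∞) :
    ∫⁻ x, rfb b t x * F (II b' t x).card ∂(law d p) =
      ∫⁻ x, rfb b' t x * F (II b' t x).card ∂(law d p) := by
  have hm : Measurable fun x : ℕ → Bool × Dir d => rfb b t x * F (II b' t x).card := by
    refine meas_local t _ fun x y h => ?_
    simp only [rfb]
    rw [II_local h, h t le_rfl]
  have h1 := lint_PM p
    (fun n => if n = t then (Equiv.swap b b').prodCongr (Equiv.refl Bool) else Equiv.refl _) _ hm
  rw [← h1]
  refine lintegral_congr fun x => ?_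
  show rfb b t (SW t b b' x) * F (II b' t (SW t b b' x)).card = _
  have h2 : II b' t (SW t b b' x) = II b' t x := by
    unfold II
    refine Finset.filter_congr fun n hn => ?_
    rw [SW_ne x (Finset.mem_range.1 hn).ne]
  have h3 : rfb b t (SW t b b' x) = rfb b' t x := by
    unfold rfb
    rw [SW_eq]
    simp only
    have h4 : (Equiv.swap b b' (x t).2.1 = b) ↔ ((x t).2.1 = b') := by
      rw [Equiv.swap_apply_eq_iff, Equiv.swap_apply_left]
    simp only [h4]
  rw [h2, h3]

lemma rf_sum (t : ℕ) (x : ℕ → Bool × Dir d) : rf t x = ∑ b : Fin d, rfb b t x := by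
  unfold rf rfb
  by_cases h : (x t).1 = true
  · simp [h]
  · simp [h]

lemma axis_sum (p : ℕ → I) (b : Fin d) (t : ℕ) (F : ℕ → ℝ≥0∞) :
    ∫⁻ x, rf t x * F (II b t x).card ∂(law d p) =
      d * ∫⁻ x, rfb b t x * F (II b t x).card ∂(law d p) := by
  have h1 : ∀ x : ℕ → Bool × Dir d, rf t x * F (II b t x).card =
      ∑ b' : Fin d, rfb b' t x * F (II b t x).card := by
    intro x
    rw [rf_sum, Finset.sum_mul]
  have hm : ∀ b' : Fin d, Measurable fun x : ℕ → Bool × Dir d =>
      rfb b' t x * F (II b t x).card := by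
    intro b'
    refine meas_local t _ fun x y h => ?_
    simp only [rfb]
    rw [II_local h, h t le_rfl]
  rw [lintegral_congr h1, lintegral_finsetSum _ (fun b' _ => hm b')]
  rw [Finset.sum_congr rfl fun b' _ => swap_axis p b' b t F]
  simp

lemma card_II_succ {b : Fin d} {t : ℕ} {x : ℕ → Bool × Dir d}
    (h : (x t).1 = true ∧ (x t).2.1 = b) : (II b (t + 1) x).card = (II b t x).card + 1 := by
  unfold II
  rw [Finset.range_add_one, Finset.filter_insert, if_pos ⟨Or.inr h.1, h.2⟩,
    Finset.card_insert_of_notMem]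
  intro hc
  exact absurd (Finset.mem_range.1 (Finset.mem_filter.1 hc).1) (lt_irrefl _)

lemma card_II_mono (b : Fin d) (x : ℕ → Bool × Dir d) : Monotone fun t => (II b t x).card := by
  intro s t hst
  refine Finset.card_le_card ?_
  unfold II
  exact Finset.filter_subset_filter _ (Finset.range_subset_range.2 hst)

lemma path_sum (b : Fin d) (x : ℕ → Bool × Dir d) (F : ℕ → ℝ≥0∞) :
    ∑' t, rfb b t x * F (II b t x).card ≤ ∑' k, F k := by
  set J : Set ℕ := {t | (x t).1 = true ∧ (x t).2.1 = b} with hJ
  have h1 : ∀ t, rfb b t x * F (II b t x).card = J.indicator (fun t => F (II b t x).card) t := by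
    intro t
    unfold rfb
    by_cases h : t ∈ J
    · have h' : (x t).1 = true ∧ (x t).2.1 = b := h
      rw [Set.indicator_of_mem h, if_pos h', one_mul]
    · have h' : ¬ ((x t).1 = true ∧ (x t).2.1 = b) := h
      rw [Set.indicator_of_notMem h, if_neg h', zero_mul]
  simp only [h1]
  rw [← _root_.tsum_subtype]
  have hinj : Function.Injective (fun t : J => (II b t.1 x).card) := by
    intro s t h
    rcases lt_trichotomy s.1 t.1 with h2 | h2 | h2
    · exfalso
      have h3 := card_II_succ s.2
      have h4 := card_II_mono b x (show s.1 + 1 ≤ t.1 by omega)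
      simp only at h h4
      omega
    · exact Subtype.ext h2
    · exfalso
      have h3 := card_II_succ t.2
      have h4 := card_II_mono b x (show t.1 + 1 ≤ s.1 by omega)
      simp only at h h4
      omega
  exact ENNReal.tsum_comp_le_tsum_of_injective hinj F

lemma total_sum (p : ℕ → I) (b : Fin d) (F : ℕ → ℝ≥0∞) :
    ∑' t, ∫⁻ x, rf t x * F (II b t x).card ∂(law d p) ≤ d * ∑' k, F k := by
  simp only [axis_sum]
  rw [ENNReal.tsum_mul_left]
  refine mul_le_mul_right ?_ _
  rw [← lintegral_tsum]
  · refine (lintegral_mono fun x => path_sum b x F).trans ?_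
    rw [lintegral_const, measure_univ, mul_one]
  · intro t
    refine (meas_local t _ fun x y h => ?_).aemeasurable
    simp only [rfb]
    rw [II_local h, h t le_rfl]

lemma amgm (a b c : ℝ≥0∞) : a * b * c ≤ a ^ 3 + b ^ 3 + c ^ 3 := by
  set m := max a (max b c) with hm
  have h1 : a * b * c ≤ m ^ 3 := by
    rw [pow_succ, pow_two]
    exact mul_le_mul' (mul_le_mul' (le_max_left _ _)
      ((le_max_left _ _).trans (le_max_right _ _))) ((le_max_right _ _).trans (le_max_right _ _))
  refine h1.trans ?_
  rcases max_choice a (max b c) with h | h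
  · rw [hm, h, add_assoc]; exact le_self_add
  · rw [hm, h]
    rcases max_choice b c with h2 | h2
    · rw [h2]
      calc b ^ 3 ≤ a ^ 3 + b ^ 3 := le_add_self
        _ ≤ _ := le_self_add
    · rw [h2]; exact le_add_self

/-- Three coordinates at once. -/
lemma three (p : ℕ → I) {b1 b2 b3 : Fin d} (h12 : b1 ≠ b2) (h13 : b1 ≠ b3) (h23 : b2 ≠ b3)
    (t R : ℕ) :
    ∫⁻ x, rf t x * ind b1 t R x * ind b2 t R x * ind b3 t R x ∂(law d p) ≤
      ∫⁻ x, rf t x * cE R (II b1 t x).card ^ 3 ∂(law d p) +
      ∫⁻ x, rf t x * cE R (II b2 t x).card ^ 3 ∂(law d p) +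
      ∫⁻ x, rf t x * cE R (II b3 t x).card ^ 3 ∂(law d p) := by
  have hrf : ∀ A (x : ℕ → Bool × Dir d), rf t (FA A x) = rf t x := by
    intro A x; unfold rf; rw [FA_fst]
  have hind : ∀ {b b' : Fin d}, b' ≠ b → ∀ A (x : ℕ → Bool × Dir d), A ⊆ II b t x →
      ind b' t R (FA A x) = ind b' t R x := by
    intro b b' hb A x hA
    unfold ind
    rw [FA_pos_ne hb hA]
  have l1 : ∀ (x y : ℕ → Bool × Dir d), (∀ n ≤ t, x n = y n) → rf t x = rf t y := by
    intro x y h; unfold rf; rw [h t le_rfl]
  have l2 : ∀ (b : Fin d) (x y : ℕ → Bool × Dir d), (∀ n ≤ t, x n = y n) →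
      ind b t R x = ind b t R y := by
    intro b x y h; unfold ind; rw [pos_local h]
  -- first
  have e1 := one_coord p b1 t R (fun x => rf t x * ind b2 t R x * ind b3 t R x)
    (fun x y h => by simp only [l1 x y h, l2 _ x y h])
    (fun A x hA => by simp only [hrf, hind h12.symm A x hA, hind h13.symm A x hA])
  have e2 := one_coord p b2 t R (fun x => rf t x * cE R (II b1 t x).card * ind b3 t R x)
    (fun x y h => by simp only [l1 x y h, l2 _ x y h, II_local h])
    (fun A x hA => by simp only [hrf, FA_II, hind h23.symm A x hA])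
  have e3 := one_coord p b3 t R
    (fun x => rf t x * cE R (II b1 t x).card * cE R (II b2 t x).card)
    (fun x y h => by simp only [l1 x y h, II_local h])
    (fun A x hA => by simp only [hrf, FA_II])
  calc ∫⁻ x, rf t x * ind b1 t R x * ind b2 t R x * ind b3 t R x ∂(law d p)
      = ∫⁻ x, rf t x * ind b2 t R x * ind b3 t R x * ind b1 t R x ∂(law d p) :=
        lintegral_congr fun x => by ring
    _ ≤ ∫⁻ x, rf t x * ind b2 t R x * ind b3 t R x * cE R (II b1 t x).card ∂(law d p) := e1
    _ = ∫⁻ x, rf t x * cE R (II b1 t x).card * ind b3 t R x * ind b2 t R x ∂(law d p) :=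
        lintegral_congr fun x => by ring
    _ ≤ ∫⁻ x, rf t x * cE R (II b1 t x).card * ind b3 t R x * cE R (II b2 t x).card
          ∂(law d p) := e2
    _ = ∫⁻ x, rf t x * cE R (II b1 t x).card * cE R (II b2 t x).card * ind b3 t R x
          ∂(law d p) := lintegral_congr fun x => by ring
    _ ≤ ∫⁻ x, rf t x * cE R (II b1 t x).card * cE R (II b2 t x).card *
          cE R (II b3 t x).card ∂(law d p) := e3
    _ ≤ ∫⁻ x, (rf t x * cE R (II b1 t x).card ^ 3 + rf t x * cE R (II b2 t x).card ^ 3 +
          rf t x * cE R (II b3 t x).card ^ 3) ∂(law d p) := by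
        refine lintegral_mono fun x => ?_
        show rf t x * cE R (II b1 t x).card * cE R (II b2 t x).card *
          cE R (II b3 t x).card ≤ _
        rw [← mul_add, ← mul_add, mul_assoc, mul_assoc, ← mul_assoc (cE R (II b1 t x).card)]
        exact mul_le_mul_right (amgm _ _ _) _
    _ = _ := by
        have hm : ∀ b : Fin d, Measurable fun x : ℕ → Bool × Dir d =>
            rf t x * cE R (II b t x).card ^ 3 := fun b =>
          meas_local t _ fun x y h => by simp only [l1 x y h, II_local h]
        have a1 := lintegral_add_left (μ := law d p) (hm b1)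
          (fun x => rf t x * cE R (II b2 t x).card ^ 3)
        have a2 := lintegral_add_left (μ := law d p)
          (f := fun x => rf t x * cE R (II b1 t x).card ^ 3 + rf t x * cE R (II b2 t x).card ^ 3)
          ((hm b1).add (hm b2)) (fun x => rf t x * cE R (II b3 t x).card ^ 3)
        exact a2.trans (by rw [a1])

lemma cE_sum (R : ℕ) : ∑' k, cE R k ^ 3 ≠ ∞ := by
  have h1 : ∀ k, cE R k = ENNReal.ofReal ((2 * R + 1) * cc k) := by
    intro k
    unfold cE cc
    rw [ENNReal.ofReal_mul (by positivity), ENNReal.ofReal_div_of_pos (by positivity)]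
    congr 1
    · rw [ENNReal.ofReal_add (by positivity) (by norm_num), ENNReal.ofReal_mul (by norm_num)]
      simp
    · rw [ENNReal.ofReal_natCast, ENNReal.ofReal_pow (by norm_num)]
      simp
  have h2 : ∀ k, cE R k ^ 3 = ENNReal.ofReal ((2 * R + 1) ^ 3 * cc k ^ 3) := by
    intro k
    rw [h1, ← ENNReal.ofReal_pow (mul_nonneg (by positivity) (cc_nonneg k)), mul_pow]
  simp only [h2]
  exact (cc_cube_summable.mul_left _).tsum_ofReal_ne_top

end Pool.Agent.Q211.CRW
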